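import Pool.Agent.Lib.MP_dc7230_lc.NewV
import Pool.Agent.Lib.MP_dc7230_lc_h77.Hull

/-!
# MP_dc7230_lc: the set theory in the universe
-/

set_option autoImplicit false

namespace Pool.MP_dc7230_lc

open Set

namespace Fin3

theorem card_omega3 : (Ordinal.omega.{0} 3).card = Cardinal.aleph 3 := by
  simp

theorem lt_omega3 {o : Ordinal.{0}} : o < Ordinal.omega 3 ↔ o.card ≤ Cardinal.aleph 2 := by
  rw [← Cardinal.ord_aleph, Cardinal.lt_ord]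
  have h : (Cardinal.aleph 3 : Cardinal.{0}) = Order.succ (Cardinal.aleph 2) := by
    rw [Cardinal.succ_aleph]
    norm_num
  rw [h, Order.lt_succ_iff]

theorem succ_lt {o : Ordinal.{0}} (h : o < Ordinal.omega 3) : o + 1 < Ordinal.omega 3 := by
  rw [lt_omega3] at h ⊢
  rw [Ordinal.card_add, Ordinal.card_one]
  exact Cardinal.add_le_of_le (Cardinal.aleph0_le_aleph 2) h
    (Cardinal.one_le_aleph0.trans (Cardinal.aleph0_le_aleph 2))

theorem mk_Iio_le {o : Ordinal.{0}} (h : o < Ordinal.omega 3) :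
    Cardinal.mk (Iio o) ≤ Cardinal.aleph 2 := by
  rw [Cardinal.mk_Iio_ordinal]
  have := Cardinal.lift_le.{1}.mpr (lt_omega3.mp h)
  simpa using this

/-- regularity -/
theorem bdd3 {ι : Type 1} (hι : Cardinal.mk ι ≤ Cardinal.aleph 2) (g : ι → Ordinal.{0})
    (hg : ∀ i, g i < Ordinal.omega 3) : ∃ γ < Ordinal.omega 3, ∀ i, g i < γ := by
  by_contra hcon
  push Not at hcon
  choose i hi using (fun γ : Iio (Ordinal.omega.{0} 3) => hcon γ.1 γ.2)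
  have h1 : Cardinal.mk (Iio (Ordinal.omega.{0} 3)) ≤
      Cardinal.mk (Σ i : ι, Iio (g i + 1)) := by
    refine Cardinal.mk_le_of_injective (f := fun γ => ⟨i γ, ⟨γ.1, ?_⟩⟩) ?_
    · exact Order.lt_add_one_iff.mpr (hi γ)
    · intro a b hab
      have := congrArg (fun z : (Σ i : ι, Iio (g i + 1)) => (z.2 : Ordinal.{0})) hab
      exact Subtype.ext this
  have h2 : Cardinal.mk (Σ i : ι, Iio (g i + 1)) ≤ Cardinal.aleph 2 := by
    rw [Cardinal.mk_sigma]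
    calc Cardinal.sum (fun i : ι => Cardinal.mk (Iio (g i + 1)))
        ≤ Cardinal.sum (fun _ : ι => (Cardinal.aleph 2 : Cardinal.{1})) :=
          Cardinal.sum_le_sum _ _ (fun i => mk_Iio_le (succ_lt (hg i)))
      _ = Cardinal.mk ι * Cardinal.aleph 2 := Cardinal.sum_const' _ _
      _ ≤ Cardinal.aleph 2 * Cardinal.aleph 2 := by gcongr
      _ = Cardinal.aleph 2 := Cardinal.mul_eq_self (Cardinal.aleph0_le_aleph 2)
  have h3 : Cardinal.mk (Iio (Ordinal.omega.{0} 3)) = Cardinal.aleph 3 := by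
    rw [Cardinal.mk_Iio_ordinal, card_omega3, Cardinal.lift_aleph]
    simp
  rw [h3] at h1
  exact absurd (h1.trans h2) (not_le.mpr (Cardinal.aleph_lt_aleph.mpr (by norm_num)))

/-- the level of a constructible set -/
theorem exists_level {a : ZFSet.{0}} (h : a ∈ Lset (Ordinal.omega 3)) :
    ∃ τ < Ordinal.omega 3, a ∈ Lset τ ∧ ∀ τ' < τ, a ∉ Lset τ' := by
  obtain ⟨β, hβ, h1⟩ := mem_Lset.1 h
  have h2 := mem_Lset_succ h1
  obtain ⟨τ, hτ, hmin⟩ := WellFounded.has_min (wellFounded_lt (α := Ordinal.{0}))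
    {τ | a ∈ Lset τ} ⟨_, h2⟩
  refine ⟨τ, lt_of_le_of_lt (not_lt.mp (hmin _ h2)) (succ_lt hβ), hτ, fun τ' h' h'' => ?_⟩
  exact hmin τ' h'' h'

/-- distinct levels, distinct sets -/
theorem mk_new_le {ν : Ordinal.{0}} {κ : Cardinal.{1}}
    (h : Cardinal.mk {a : ZFSet.{0} // a ⊆ ν.toZFSet} ≤ κ) :
    Cardinal.mk {τ : Ordinal.{0} // NewV ν τ} ≤ κ := by
  choose a ha1 ha2 ha3 using fun τ : {τ : Ordinal.{0} // NewV ν τ} => τ.2
  refine (Cardinal.mk_le_of_injective (f := fun τ => (⟨a τ, ha1 τ⟩ : {a : ZFSet.{0} // a ⊆ ν.toZFSet}))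
    ?_).trans h
  intro τ τ' hττ
  have h1 : a τ = a τ' := congrArg Subtype.val hττ
  apply Subtype.ext
  rcases lt_trichotomy τ.1 τ'.1 with h2 | h2 | h2
  · exact absurd (h1 ▸ ha2 τ) (ha3 τ' _ h2)
  · exact h2
  · exact absurd (h1 ▸ ha2 τ') (ha3 τ _ h2)

theorem mk_subsets_le (ν : Ordinal.{0}) :
    Cardinal.mk {a : ZFSet.{0} // a ⊆ ν.toZFSet} ≤ 2 ^ Cardinal.mk (Iio ν) := by
  rw [← Cardinal.mk_set]
  refine Cardinal.mk_le_of_injective
    (f := fun a => {η : Iio ν | (η : Ordinal.{0}).toZFSet ∈ a.1}) ?_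
  intro a b hab
  apply Subtype.ext
  apply ZFSet.ext
  have key : ∀ (a b : {a : ZFSet.{0} // a ⊆ ν.toZFSet}),
      {η : Iio ν | (η : Ordinal.{0}).toZFSet ∈ a.1} = {η : Iio ν | (η : Ordinal.{0}).toZFSet ∈ b.1} →
      ∀ z, z ∈ a.1 → z ∈ b.1 := by
    intro a b hab z hz
    obtain ⟨η, hη, rfl⟩ := Ordinal.mem_toZFSet_iff.1 (a.2 hz)
    have : (⟨η, hη⟩ : Iio ν) ∈ {η : Iio ν | (η : Ordinal.{0}).toZFSet ∈ a.1} := hz
    rw [hab] at this
    exact this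
  exact fun z => ⟨key a b hab z, key b a hab.symm z⟩

end Fin3

/-- regularity of `ω₃` -/
theorem reg3 : ∀ β < Ordinal.omega.{0} 3, ∀ f,
    ZFSet.IsFunc β.toZFSet (Ordinal.omega 3).toZFSet f →
    ∃ γ < Ordinal.omega 3, ∀ x y, ZFSet.pair x y ∈ f → y ∈ γ.toZFSet := by
  intro β hβ f hf
  have h1 : ∀ ξ : Iio β, ∃ ζ : Ordinal.{0}, ζ < Ordinal.omega 3 ∧
      ∀ y, ZFSet.pair (ξ : Ordinal.{0}).toZFSet y ∈ f → y = ζ.toZFSet := by
    intro ξ
    obtain ⟨y, hy, huniq⟩ := hf.2 _ (Ordinal.toZFSet_mem_toZFSet_iff.2 ξ.2)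
    have h2 := (ZFSet.pair_mem_prod.1 (hf.1 hy)).2
    obtain ⟨ζ, hζ, rfl⟩ := Ordinal.mem_toZFSet_iff.1 h2
    exact ⟨ζ, hζ, fun y' hy' => huniq y' hy'⟩
  choose g hg1 hg2 using h1
  obtain ⟨γ, hγ, h3⟩ := Fin3.bdd3 (Fin3.mk_Iio_le hβ) g hg1
  refine ⟨γ, hγ, fun x y hxy => ?_⟩
  have h4 := (ZFSet.pair_mem_prod.1 (hf.1 hxy)).1
  obtain ⟨ξ, hξ, rfl⟩ := Ordinal.mem_toZFSet_iff.1 h4
  rw [hg2 ⟨ξ, hξ⟩ y hxy]
  exact Ordinal.toZFSet_mem_toZFSet_iff.2 (h3 _)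

theorem exists_index (ν : Ordinal.{0})
    (hII : ∀ δ < Ordinal.omega 3, ∃ τ < Ordinal.omega 3, δ < τ ∧ NewV ν τ) :
    ∃ (ι : Type) (A : ι → ZFSet.{0}), Cardinal.aleph 2 < Cardinal.mk ι ∧ Function.Injective A ∧
      ∀ i, A i ∈ Lset (Ordinal.omega 3) ∧ A i ⊆ ν.toZFSet := by
  let ι : Type := {t : (Ordinal.omega.{0} 3).ToType // NewV ν (Ordinal.ToType.mk.symm t).1}
  have hι : ∀ t : ι, NewV ν (Ordinal.ToType.mk.symm t.1).1 := fun t => t.2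
  choose A hA1 hA2 hA3 using hι
  refine ⟨ι, A, ?_, ?_, ?_⟩
  · by_contra hcon
    rw [not_lt] at hcon
    have hcon' : Cardinal.mk (ULift.{1} ι) ≤ Cardinal.aleph 2 := by
      rw [Cardinal.mk_uLift]
      have := Cardinal.lift_le.{1}.mpr hcon
      simpa using this
    obtain ⟨γ, hγ, h1⟩ := Fin3.bdd3 hcon' (fun t => (Ordinal.ToType.mk.symm t.down.1).1)
      (fun t => (Ordinal.ToType.mk.symm t.down.1).2)
    obtain ⟨τ, hτ, h2, h3⟩ := hII γ hγ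
    have h4 := h1 ⟨⟨Ordinal.ToType.mk ⟨τ, hτ⟩, by simpa using h3⟩⟩
    simp only [OrderIso.symm_apply_apply] at h4
    exact lt_irrefl _ (h4.trans h2)
  · intro t t' h
    rcases lt_trichotomy (Ordinal.ToType.mk.symm t.1).1 (Ordinal.ToType.mk.symm t'.1).1 with
      h2 | h2 | h2
    · exact absurd (h ▸ hA2 t) (hA3 t' _ h2)
    · apply Subtype.ext
      exact (Ordinal.ToType.mk.symm).injective (Subtype.ext h2)
    · exact absurd (h ▸ hA2 t') (hA3 t _ h2)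
  · intro t
    exact ⟨Lset_mono (Ordinal.ToType.mk.symm t.1).2.le (hA2 t), hA1 t⟩

theorem exists_mu_nu
    (h6 : (2 : Cardinal.{0}) ^ (Cardinal.aleph 1 : Cardinal.{0}) = Cardinal.aleph 2)
    (hT1 : ∀ ν < Ordinal.omega 3, ∀ a : ZFSet.{0}, IsL a → a ⊆ ν.toZFSet →
      a ∈ Lset (Ordinal.omega 3))
    (hne : ∃ ν < Ordinal.omega 3, ∃ f, IsL f ∧
      ZFSet.IsFunc (Ordinal.omega 3).toZFSet (ZFSet.powerset ν.toZFSet) f ∧
      ∀ x x' y, ZFSet.pair x y ∈ f → ZFSet.pair x' y ∈ f → x = x') :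
    ∃ ν μ : Ordinal.{0}, Ordinal.omega 2 ≤ ν ∧ ν < μ ∧ μ < Ordinal.omega 3 ∧
      (∀ η < ν, ∀ τ < Ordinal.omega 3, NewV η τ → τ < μ) ∧
      (∀ δ < Ordinal.omega 3, ∃ τ < Ordinal.omega 3, δ < τ ∧ NewV ν τ) := by
  -- the level set of `ν₀` is unbounded
  obtain ⟨ν₀, hν₀, f, ⟨α, hfα⟩, hf, hinj⟩ := hne
  have hub0 : ∀ δ < Ordinal.omega 3, ∃ τ < Ordinal.omega 3, δ < τ ∧ NewV ν₀ τ := by
    by_contra hcon
    push Not at hcon
    obtain ⟨δ, hδ, hcon⟩ := hcon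
    have h1 : ∀ ξ : Iio (Ordinal.omega.{0} 3), ∃ y : ZFSet.{0},
        ZFSet.pair (ξ : Ordinal.{0}).toZFSet y ∈ f ∧ y ∈ Lset δ := by
      intro ξ
      obtain ⟨y, hy, -⟩ := hf.2 _ (Ordinal.toZFSet_mem_toZFSet_iff.2 ξ.2)
      have h2 := (ZFSet.pair_mem_prod.1 (hf.1 hy)).2
      rw [ZFSet.mem_powerset] at h2
      have h3 : y ∈ Lset α := by
        have h4 : ZFSet.pair (ξ : Ordinal.{0}).toZFSet y ∈ Lset α := Lset_trans hfα hy
        have h5 : ({(ξ : Ordinal.{0}).toZFSet, y} : ZFSet) ∈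
            ZFSet.pair (ξ : Ordinal.{0}).toZFSet y := by
          unfold ZFSet.pair
          rw [ZFSet.mem_pair]
          exact Or.inr rfl
        have h6 : y ∈ ({(ξ : Ordinal.{0}).toZFSet, y} : ZFSet) := by
          rw [ZFSet.mem_pair]; exact Or.inr rfl
        exact Lset_trans (Lset_trans h4 h5) h6
      have h7 := hT1 ν₀ hν₀ y ⟨α, h3⟩ h2
      obtain ⟨τ, hτ, h8, h9⟩ := Fin3.exists_level h7
      have h10 : τ ≤ δ := by
        by_contra hlt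
        exact hcon τ hτ (not_le.mp hlt) ⟨y, h2, h8, h9⟩
      exact ⟨y, hy, Lset_mono h10 h8⟩
    choose y hy1 hy2 using h1
    have h2 : Cardinal.mk (Iio (Ordinal.omega.{0} 3)) ≤ Cardinal.mk {x // x ∈ Lset δ} := by
      refine Cardinal.mk_le_of_injective (f := fun ξ => ⟨y ξ, hy2 ξ⟩) ?_
      intro ξ ξ' h
      have h3 : y ξ = y ξ' := congrArg Subtype.val h
      have h4 := hinj _ _ _ (hy1 ξ) (h3 ▸ hy1 ξ')
      exact Subtype.ext (Ordinal.toZFSet_injective h4)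
    have h3 : Cardinal.mk (Iio (Ordinal.omega.{0} 3)) = Cardinal.aleph 3 := by
      rw [Cardinal.mk_Iio_ordinal, Fin3.card_omega3, Cardinal.lift_aleph]
      simp
    have h4 : Cardinal.mk {x // x ∈ Lset δ} ≤ Cardinal.aleph 2 := by
      refine (mk_Lset_le δ).trans (max_le (Cardinal.aleph0_le_aleph 2) ?_)
      have := Cardinal.lift_le.{1}.mpr (Fin3.lt_omega3.mp hδ)
      simpa using this
    rw [h3] at h2
    exact absurd (h2.trans h4) (not_le.mpr (Cardinal.aleph_lt_aleph.mpr (by norm_num)))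
  -- the least such `ν`
  obtain ⟨ν, ⟨hν, hub⟩, hmin⟩ := WellFounded.has_min (wellFounded_lt (α := Ordinal.{0}))
    {ν | ν < Ordinal.omega 3 ∧ ∀ δ < Ordinal.omega 3, ∃ τ < Ordinal.omega 3, δ < τ ∧ NewV ν τ}
    ⟨ν₀, hν₀, hub0⟩
  have hbd : ∀ η : Iio ν, ∃ δ : Ordinal.{0}, δ < Ordinal.omega 3 ∧
      ∀ τ < Ordinal.omega 3, NewV η τ → τ ≤ δ := by
    intro η
    by_contra hcon
    push Not at hcon
    refine hmin η ⟨lt_trans (mem_Iio.1 η.2) hν, fun δ hδ => ?_⟩ η.2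
    obtain ⟨τ, h1, h2, h3⟩ := hcon δ hδ
    exact ⟨τ, h1, h3, h2⟩
  choose d hd1 hd2 using hbd
  obtain ⟨γ, hγ, h3⟩ := Fin3.bdd3 (Fin3.mk_Iio_le hν) d hd1
  refine ⟨ν, max γ (ν + 1), ?_, ?_, max_lt hγ (Fin3.succ_lt hν), ?_, hub⟩
  · by_contra hcon
    rw [not_le] at hcon
    have h4 : ν.card ≤ Cardinal.aleph 1 := by
      rw [← Cardinal.ord_aleph, Cardinal.lt_ord] at hcon
      have h5 : (Cardinal.aleph 2 : Cardinal.{0}) = Order.succ (Cardinal.aleph 1) := by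
        rw [Cardinal.succ_aleph, one_add_one_eq_two]
      rw [h5] at hcon
      exact Order.lt_succ_iff.mp hcon
    have h5 : (2 : Cardinal.{1}) ^ Cardinal.mk (Iio ν) ≤ Cardinal.aleph 2 := by
      have h7 : (2 : Cardinal.{1}) ^ Cardinal.lift.{1, 0} ν.card ≤ Cardinal.aleph 2 := by
        have h8 : Cardinal.lift.{1, 0} ((2 : Cardinal.{0}) ^ ν.card) ≤
            Cardinal.lift.{1, 0} (Cardinal.aleph 2) := by
          rw [Cardinal.lift_le, ← h6]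
          exact Cardinal.power_le_power_left two_ne_zero h4
        simpa using h8
      rwa [Cardinal.mk_Iio_ordinal]
    have h6 := Fin3.mk_new_le ((Fin3.mk_subsets_le ν).trans h5)
    have h7 : Cardinal.mk {τ : {τ : Ordinal.{0} // NewV ν τ} // τ.1 < Ordinal.omega 3} ≤
        Cardinal.aleph 2 := (Cardinal.mk_subtype_le _).trans h6
    obtain ⟨γ', hγ', h8⟩ := Fin3.bdd3 h7 (fun τ => τ.1.1) (fun τ => τ.2)
    obtain ⟨τ, hτ, h9, h10⟩ := hub γ' hγ'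
    exact lt_irrefl _ ((h8 ⟨⟨τ, h10⟩, hτ⟩).trans h9)
  · exact lt_of_lt_of_le (Order.lt_add_one_iff.mpr le_rfl) (le_max_right _ _)
  · intro η hη τ hτ hN
    exact lt_of_le_of_lt (hd2 ⟨η, hη⟩ τ hτ hN) (lt_of_lt_of_le (h3 ⟨η, hη⟩) (le_max_left _ _))

end Pool.MP_dc7230_lc
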