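import Pool.Agent.Lib.MP_dc7230_lc.TreeI

/-!
# MP_dc7230_lc: from codes to an `ω₂`-Kurepa tree whose body is a continuous image
-/

set_option autoImplicit false

namespace Pool.MP_dc7230_lc

open Set Cardinal

section Basic

theorem mk_W : #W = aleph 2 := by
  simp [W]

theorem mk_Iio_lt_W (a : W) : #(Iio a) < aleph 2 := by
  have h := Cardinal.mk_Iio_lt a (by rw [mk_W, Cardinal.ord_aleph]; exact (Ordinal.type_toType _).symm)
  rwa [mk_W] at h

theorem mk_Iio_le (a : W) : #(Iio a) ≤ aleph 1 := by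
  have h := mk_Iio_lt_W a
  have h2 : (aleph 2 : Cardinal.{0}) = Order.succ (aleph 1) := by
    rw [succ_aleph, one_add_one_eq_two]
  rw [h2] at h
  exact Order.lt_succ_iff.mp h

theorem not_mk_W_le (s : Set W) (a : W) (hs : ∀ b, b = a ∨ b ∈ s) : ¬ #s ≤ aleph 1 := by
  intro h
  have h1 : (univ : Set W) ⊆ insert a s := fun b _ => hs b
  have h2 : #W ≤ aleph 1 := by
    rw [← Cardinal.mk_univ]
    refine (mk_le_mk_of_subset h1).trans ((Cardinal.mk_insert_le).trans ?_)
    calc #s + 1 ≤ aleph 1 + aleph 1 := by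
          gcongr
          exact (one_le_aleph0).trans (aleph0_le_aleph 1)
      _ = aleph 1 := Cardinal.add_eq_self (aleph0_le_aleph 1)
  rw [mk_W] at h2
  exact absurd h2 (not_le.mpr (aleph_lt_aleph.mpr (by norm_num)))

theorem W_noMax (a : W) : ∃ b, a < b := by
  by_contra hc
  push Not at hc
  exact not_mk_W_le (Iio a) a (fun b => (hc b).eq_or_lt) (mk_Iio_le a)

theorem mk_Iic_le (a : W) : #(Iic a) ≤ aleph 1 := by
  obtain ⟨b, hb⟩ := W_noMax a
  exact (mk_le_mk_of_subset (fun x (hx : x ≤ a) => lt_of_le_of_lt hx hb)).trans (mk_Iio_le b)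

instance nonempty_W : Nonempty W := by
  rw [← Cardinal.mk_ne_zero_iff, mk_W]
  exact (aleph_pos 2).ne'

end Basic

section Codes

variable {𝒞 : Type 1} (T : CodeSys 𝒞)

/-- an element of `W` -/
noncomputable def z0 : W := Classical.arbitrary W

theorem exists_idx (g : W) : ∃ f : 𝒞 → W, InjOn f (T.Code g) ∧ ∀ c ∈ T.Code g, f c ≠ z0 := by
  classical
  have h1 : aleph 1 ≤ #({w : W | w ≠ z0}) := by
    refine le_of_not_ge fun h => not_mk_W_le {w : W | w ≠ z0} z0 (fun b => ?_) h
    by_cases hb : b = z0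
    · exact Or.inl hb
    · exact Or.inr hb
  have h2 : Cardinal.lift.{0, 1} #(T.Code g) ≤ Cardinal.lift.{1, 0} #({w : W | w ≠ z0}) := by
    refine (Cardinal.lift_le.mpr (T.card g)).trans ?_
    have := Cardinal.lift_le.{1, 0}.mpr h1
    simpa using this
  obtain ⟨e⟩ := Cardinal.lift_mk_le'.mp h2
  refine ⟨fun c => if h : c ∈ T.Code g then (e ⟨c, h⟩ : W) else z0, ?_, ?_⟩
  · intro c hc d hd h
    simp only [hc, hd, dif_pos] at h
    have := e.injective (Subtype.ext h)
    exact congrArg Subtype.val this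
  · intro c hc
    simp only [hc, dif_pos]
    exact (e ⟨c, hc⟩).2

/-- indices of codes -/
noncomputable def idx (g : W) : 𝒞 → W := Classical.choose (exists_idx T g)

theorem idx_inj (g : W) : InjOn (idx T g) (T.Code g) := (Classical.choose_spec (exists_idx T g)).1

theorem idx_ne (g : W) {c : 𝒞} (hc : c ∈ T.Code g) : idx T g c ≠ z0 :=
  (Classical.choose_spec (exists_idx T g)).2 c hc

open Classical in
/-- the trace of a code -/
noncomputable def tr (g : W) (c : 𝒞) (d : W) : W :=
  if d ∈ T.C g c then idx T d (T.rs g d c) else z0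

/-- the local condition at `g` -/
def Good (x : W → W) (g : W) : Prop :=
  x g ≠ z0 → ∃ c ∈ T.Code g, x g = idx T g c ∧ ∀ d < g, x d = tr T g c d

theorem Good.congr {x y : W → W} {g : W} (h : ∀ d ≤ g, x d = y d) (hx : Good T x g) :
    Good T y g := by
  intro hy
  rw [← h g le_rfl] at hy
  obtain ⟨c, hc, h1, h2⟩ := hx hy
  refine ⟨c, hc, by rw [← h g le_rfl]; exact h1, fun d hd => ?_⟩
  rw [← h d hd.le]; exact h2 d hd

open Classical in
/-- extension by zero -/
noncomputable def ext (s : Seq) : W → W := fun i => if h : i < s.len then s.val ⟨i, h⟩ else z0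

theorem ext_of_lt (s : Seq) {i : W} (h : i < s.len) : ext s i = s.val ⟨i, h⟩ := by
  simp [ext, h]

theorem ext_of_le (s : Seq) {i : W} (h : s.len ≤ i) : ext s i = z0 := by
  simp [ext, not_lt.mpr h]

theorem res_ext (s : Seq) : res (ext s) s.len = s := by
  obtain ⟨l, v⟩ := s
  unfold res
  congr 1
  funext i
  exact ext_of_lt ⟨l, v⟩ i.2

theorem ext_res (x : W → W) (α : W) {i : W} (h : i < α) : ext (res x α) i = x i := by
  rw [ext_of_lt _ (show i < (res x α).len from h)]
  rfl

theorem ext_cut (s : Seq) (β : W) (h : β ≤ s.len) {i : W} (hi : i < β) :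
    ext (s.cut β h) i = ext s i := by
  rw [ext_of_lt _ (show i < (s.cut β h).len from hi), ext_of_lt s (hi.trans_le h)]
  rfl

/-- the tree -/
def treeS : Set Seq := {s | ∀ g < s.len, Good T (ext s) g}

theorem isTree_treeS : IsTree (treeS T) := by
  intro s hs β h g hg
  exact (hs g (lt_of_lt_of_le hg h)).congr T
    (fun d hd => (ext_cut s β h (hd.trans_lt hg)).symm)

theorem mem_body {x : W → W} : x ∈ body (treeS T) ↔ ∀ g, Good T x g := by
  constructor
  · intro h g
    obtain ⟨b, hb⟩ := W_noMax g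
    exact (h b g hb).congr T (fun d hd => ext_res x b (hd.trans_lt hb))
  · intro h α g hg
    exact (h g).congr T (fun d hd => (ext_res x α (hd.trans_lt hg)).symm)

theorem height_treeS (α : W) : ∃ s ∈ treeS T, s.len = α := by
  refine ⟨res (fun _ => z0) α, fun g hg h => absurd ?_ h, rfl⟩
  exact ext_res _ α hg

/-! ### branches -/

open Classical in
/-- the branch of a thread -/
noncomputable def thr (b : T.ι) : W → W := fun g => if g ∈ T.DT b then idx T g (T.gT b g) else z0

theorem thr_mem (b : T.ι) : thr T b ∈ body (treeS T) := by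
  rw [mem_body]
  intro g hg
  have hD : g ∈ T.DT b := by
    by_contra hc
    exact hg (by simp [thr, hc])
  obtain ⟨h1, h2, h3⟩ := T.coh b g hD
  refine ⟨T.gT b g, h1, by simp [thr, hD], fun d hd => ?_⟩
  unfold thr tr
  rw [h2]
  by_cases hdD : d ∈ T.DT b
  · rw [if_pos hdD, if_pos ⟨hdD, hd⟩, h3 d hdD hd]
  · rw [if_neg hdD, if_neg (fun h => hdD h.1)]

theorem thr_ne (b : T.ι) (g : W) : thr T b g ≠ z0 ↔ g ∈ T.DT b := by
  constructor
  · intro h
    by_contra hc
    exact h (by simp [thr, hc])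
  · intro h
    simp only [thr, h, if_true]
    exact idx_ne T g (T.coh b g h).1

theorem thr_inj : Function.Injective (fun b => (⟨thr T b, thr_mem T b⟩ : body (treeS T))) := by
  intro b b' h
  have h' : thr T b = thr T b' := congrArg Subtype.val h
  have hD : T.DT b = T.DT b' := by
    ext g
    rw [← thr_ne, ← thr_ne, h']
  refine T.inj b b' hD fun δ hδ => ?_
  have h1 := congrFun h' δ
  have hδ' : δ ∈ T.DT b' := hD ▸ hδ
  simp only [thr, hδ, hδ', if_true] at h1
  exact idx_inj T δ (T.coh b δ hδ).1 (T.coh b' δ hδ').1 h1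

theorem branches_treeS : aleph 2 < #(body (treeS T)) :=
  T.card_ι.trans_le (Cardinal.mk_le_of_injective (thr_inj T))

/-! ### levels -/

/-- pairs (place, index of a code) -/
def PP (α : W) : Type := Σ g : Iic α, (idx T (g : W) '' T.Code (g : W) : Set W)

theorem mk_PP (α : W) : #(PP T α) ≤ aleph 1 := by
  unfold PP
  rw [Cardinal.mk_sigma]
  have h : ∀ g : Iic α, #(idx T (g : W) '' T.Code (g : W) : Set W) ≤ aleph 1 := by
    intro g
    have h1 : Cardinal.lift.{1, 0} #(idx T (g : W) '' T.Code (g : W) : Set W) ≤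
        Cardinal.lift.{0, 1} #(T.Code (g : W)) := Cardinal.mk_image_le_lift
    have h2 : Cardinal.lift.{1, 0} #(idx T (g : W) '' T.Code (g : W) : Set W) ≤
        Cardinal.lift.{1, 0} (aleph 1) := by
      refine h1.trans ((Cardinal.lift_le.mpr (T.card g)).trans ?_)
      simp
    exact Cardinal.lift_le.mp h2
  calc Cardinal.sum (fun g : Iic α => #(idx T (g : W) '' T.Code (g : W) : Set W))
      ≤ Cardinal.sum (fun _ : Iic α => (aleph 1 : Cardinal.{0})) := Cardinal.sum_le_sum _ _ h
    _ = #(Iic α) * aleph 1 := Cardinal.sum_const' _ _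
    _ ≤ aleph 1 * aleph 1 := by gcongr; exact mk_Iic_le α
    _ = aleph 1 := Cardinal.mul_eq_self (aleph0_le_aleph 1)

variable {T}

/-- the place -/
def PP.g {α : W} (p : PP T α) : W := p.1

/-- the code -/
noncomputable def PP.c {α : W} (p : PP T α) : 𝒞 := Classical.choose p.2.2

theorem PP.c_mem {α : W} (p : PP T α) : p.c ∈ T.Code p.g := (Classical.choose_spec p.2.2).1

theorem PP.idx_c {α : W} (p : PP T α) : idx T p.g p.c = (p.2 : W) :=
  (Classical.choose_spec p.2.2).2

theorem exists_PP {α g : W} (hg : g ≤ α) {c : 𝒞} (hc : c ∈ T.Code g) :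
    ∃ p : PP T α, p.g = g ∧ p.c = c := by
  let p : PP T α := ⟨⟨g, hg⟩, ⟨idx T g c, c, hc, rfl⟩⟩
  refine ⟨p, rfl, ?_⟩
  have h1 : p.c ∈ T.Code g := p.c_mem
  have h2 : idx T g p.c = idx T g c := p.idx_c
  exact idx_inj T g h1 hc h2

variable (T)

open Classical in
/-- sequences with a last nonzero entry -/
noncomputable def F1 {α : W} (p : PP T α) : W → W := fun i =>
  if i < p.g then tr T p.g p.c i else if i = p.g then idx T p.g p.c else z0

open Classical in
/-- sequences of uncountable cofinality -/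
noncomputable def F2 {α : W} (p : PP T α) : W → W := fun i =>
  if i < p.g then tr T p.g p.c i else z0

open Classical in
/-- sequences of countable cofinality -/
noncomputable def F3 {α : W} (f : ℕ → PP T α) : W → W := fun i =>
  if h : ∃ n, i < (f n).g then tr T (f (Classical.choose h)).g (f (Classical.choose h)).c i else z0

theorem classify {α : W} {x : W → W} (hx : ∀ g, Good T x g) (hα : ∀ g, α ≤ g → x g = z0) :
    x = (fun _ => z0) ∨ x ∈ range (F1 T (α := α)) ∨ x ∈ range (F2 T (α := α)) ∨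
      x ∈ range (F3 T (α := α)) := by
  classical
  set D : Set W := {g | x g ≠ z0} with hD
  have hDα : ∀ d ∈ D, d < α := fun d hd => by
    by_contra hc
    exact hd (hα d (not_lt.mp hc))
  have hnD : ∀ d, d ∉ D → x d = z0 := fun d hd => by
    by_contra hc
    exact hd hc
  by_cases h0 : D = ∅
  · left
    funext g
    exact hnD g (by rw [h0]; exact notMem_empty g)
  have hne : D.Nonempty := nonempty_iff_ne_empty.mpr h0
  right
  by_cases hmax : ∃ g ∈ D, ∀ d ∈ D, d ≤ g
  · left
    obtain ⟨g, hgD, hg⟩ := hmax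
    obtain ⟨c, hc, h1, h2⟩ := hx g hgD
    obtain ⟨p, hp1, hp2⟩ := exists_PP (hDα g hgD).le hc
    refine ⟨p, ?_⟩
    funext i
    unfold F1
    rw [hp1, hp2]
    rcases lt_trichotomy i g with h | h | h
    · rw [if_pos h, h2 i h]
    · rw [if_neg (by rw [h]; exact lt_irrefl _), if_pos h, h, h1]
    · rw [if_neg (not_lt.mpr h.le), if_neg h.ne', hnD i (fun hi => not_lt.mpr (hg i hi) h)]
  right
  push Not at hmax
  by_cases hc : ∃ a : ℕ → W, (∀ n, a n ∈ D) ∧ ∀ d ∈ D, ∃ n, d ≤ a n
  · right
    obtain ⟨a, ha, hcof⟩ := hc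
    have key : ∀ n, ∃ p : PP T α, p.g = a n ∧ ∀ d < a n, x d = tr T (a n) p.c d := by
      intro n
      obtain ⟨c, hc, h1, h2⟩ := hx (a n) (ha n)
      obtain ⟨p, hp1, hp2⟩ := exists_PP (hDα _ (ha n)).le hc
      exact ⟨p, hp1, by rw [hp2]; exact h2⟩
    choose f hf1 hf2 using key
    refine ⟨f, ?_⟩
    funext i
    unfold F3
    by_cases hi : ∃ n, i < (f n).g
    · rw [dif_pos hi]
      have hn := Classical.choose_spec hi
      set n := Classical.choose hi
      rw [hf1 n] at hn ⊢
      exact (hf2 n i hn).symm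
    · rw [dif_neg hi]
      refine (hnD i fun hiD => hi ?_).symm
      obtain ⟨d, hdD, hid⟩ := hmax i hiD
      obtain ⟨n, hn⟩ := hcof d hdD
      exact ⟨n, by rw [hf1 n]; exact hid.trans_le hn⟩
  · left
    push Not at hc
    -- the least strict upper bound of `D`
    obtain ⟨r, hr, hrmin⟩ := WellFounded.has_min (wellFounded_lt (α := W)) {r | ∀ d ∈ D, d < r}
      ⟨α, hDα⟩
    have hrα : r ≤ α := not_lt.mp (hrmin α hDα)
    have hcofr : ∀ ε < r, ∃ δ ∈ D, ε ≤ δ := by
      intro ε hε
      by_contra hcon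
      push Not at hcon
      exact hrmin ε hcon hε
    have hcofr' : ∀ ε < r, ∃ δ ∈ D, ε < δ := by
      intro ε hε
      obtain ⟨δ, hδ, h1⟩ := hcofr ε hε
      obtain ⟨δ', hδ', h2⟩ := hmax δ hδ
      exact ⟨δ', hδ', h1.trans_lt h2⟩
    have key : ∀ g : W, ∃ c : 𝒞, g ∈ D → c ∈ T.Code g ∧ x g = idx T g c ∧
        ∀ d < g, x d = tr T g c d := by
      intro g
      by_cases hg : g ∈ D
      · obtain ⟨c, hc⟩ := hx g hg
        exact ⟨c, fun _ => hc⟩
      · obtain ⟨g', hg'⟩ := hne
        obtain ⟨c, hc⟩ := hx g' hg'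
        exact ⟨c, fun h => absurd h hg⟩
    choose γ hγ using key
    have hcoh : CohAt T.Code T.C T.rs D γ := by
      intro δ hδ
      obtain ⟨h1, h2, h3⟩ := hγ δ hδ
      have hC : T.C δ (γ δ) = D ∩ Iio δ := by
        ext d
        constructor
        · intro hd
          have hlt := T.C_lt δ _ h1 d hd
          refine ⟨?_, hlt⟩
          change x d ≠ z0
          rw [h3 d hlt, tr, if_pos hd]
          exact idx_ne T d (T.rs_mem δ _ h1 d hd)
        · rintro ⟨hd, hlt⟩
          by_contra hcon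
          apply hd
          rw [h3 d hlt, tr, if_neg hcon]
      refine ⟨h1, hC, fun ε hε hlt => ?_⟩
      have hεC : ε ∈ T.C δ (γ δ) := by rw [hC]; exact ⟨hε, hlt⟩
      obtain ⟨k1, k2, k3⟩ := hγ ε hε
      have := h3 ε hlt
      rw [tr, if_pos hεC, k2] at this
      exact (idx_inj T ε k1 (T.rs_mem δ _ h1 ε hεC) this).symm
    have hlim : ∀ s : ℕ → W, (∀ n, s n < r) → ∃ δ < r, ∀ n, s n ≤ δ := by
      intro s hs
      choose d hd hsd using fun n => hcofr (s n) (hs n)
      obtain ⟨e, he, hlt⟩ := hc d hd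
      exact ⟨e, hr e he, fun n => (hsd n).trans (hlt n).le⟩
    obtain ⟨c, hc1, hc2, hc3⟩ := T.lim r hlim D γ hne hr hcofr' hcoh
    obtain ⟨p, hp1, hp2⟩ := exists_PP hrα hc1
    refine ⟨p, ?_⟩
    funext i
    unfold F2
    rw [hp1, hp2]
    by_cases hi : i < r
    · rw [if_pos hi, tr, hc2]
      by_cases hiD : i ∈ D
      · rw [if_pos hiD, hc3 i hiD]
        exact (hγ i hiD).2.1.symm
      · rw [if_neg hiD, hnD i hiD]
    · rw [if_neg hi, hnD i (fun h => hi (hr i h))]

theorem level_treeS (hCH : (2 : Cardinal.{0}) ^ aleph0 = aleph 1) (α : W) :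
    #{s : Seq // s ∈ treeS T ∧ s.len = α} ≤ aleph 1 := by
  have hpow : (aleph 1 : Cardinal.{0}) ^ aleph0 = aleph 1 := by
    rw [← hCH, ← Cardinal.power_mul, Cardinal.aleph0_mul_aleph0]
  set R : Set (W → W) := {fun _ => z0} ∪ (range (F1 T (α := α)) ∪ (range (F2 T (α := α)) ∪
    range (F3 T (α := α)))) with hR
  have hRc : #R ≤ aleph 1 := by
    have e0 : #({fun _ => z0} : Set (W → W)) ≤ aleph 1 := by
      rw [Cardinal.mk_singleton]
      exact one_le_aleph0.trans (aleph0_le_aleph 1)
    have e1 : #(range (F1 T (α := α))) ≤ aleph 1 := Cardinal.mk_range_le.trans (mk_PP T α)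
    have e2 : #(range (F2 T (α := α))) ≤ aleph 1 := Cardinal.mk_range_le.trans (mk_PP T α)
    have e3 : #(range (F3 T (α := α))) ≤ aleph 1 := by
      refine Cardinal.mk_range_le.trans ?_
      rw [← Cardinal.power_def, Cardinal.mk_nat]
      calc #(PP T α) ^ aleph0 ≤ (aleph 1) ^ aleph0 :=
            Cardinal.power_le_power_right (mk_PP T α)
        _ = aleph 1 := hpow
    have hadd : ∀ {A B : Set (W → W)}, #A ≤ aleph 1 → #B ≤ aleph 1 → #(A ∪ B : Set (W → W)) ≤ aleph 1 := by
      intro A B hA hB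
      calc #(A ∪ B : Set (W → W)) ≤ #A + #B := Cardinal.mk_union_le A B
        _ ≤ aleph 1 + aleph 1 := by gcongr
        _ = aleph 1 := Cardinal.add_eq_self (aleph0_le_aleph 1)
    exact hadd e0 (hadd e1 (hadd e2 e3))
  have hmem : ∀ s : {s : Seq // s ∈ treeS T ∧ s.len = α}, ext s.1 ∈ R := by
    rintro ⟨s, hs, rfl⟩
    have h1 : ∀ g, Good T (ext s) g := by
      intro g
      by_cases hg : g < s.len
      · exact hs g hg
      · intro h
        exact absurd (ext_of_le s (not_lt.mp hg)) h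
    rcases classify T h1 (fun g hg => ext_of_le s hg) with h | h | h | h
    · exact Or.inl h
    · exact Or.inr (Or.inl h)
    · exact Or.inr (Or.inr (Or.inl h))
    · exact Or.inr (Or.inr (Or.inr h))
  refine (Cardinal.mk_le_of_injective (f := fun s => (⟨ext s.1, hmem s⟩ : R)) ?_).trans hRc
  rintro ⟨s, hs, hsα⟩ ⟨s', hs', hsα'⟩ h
  have h' : ext s = ext s' := congrArg Subtype.val h
  apply Subtype.ext
  change s = s'
  rw [← res_ext s, ← res_ext s', h', hsα, hsα']

/-! ### the retraction -/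

open Classical in
/-- the retraction of the generalized Baire space onto the body -/
noncomputable def retr (y : W → W) : W → W := fun i => if ∃ g ≤ i, ¬ Good T y g then z0 else y i

theorem retr_mem (y : W → W) : retr T y ∈ body (treeS T) := by
  rw [mem_body]
  intro g hg
  have h1 : ¬ ∃ g' ≤ g, ¬ Good T y g' := by
    intro h
    exact hg (by simp only [retr, if_pos h])
  have h2 : ∀ d ≤ g, retr T y d = y d := by
    intro d hd
    have : ¬ ∃ g' ≤ d, ¬ Good T y g' := fun ⟨g', h, h'⟩ => h1 ⟨g', h.trans hd, h'⟩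
    simp only [retr, if_neg this]
  have h3 : Good T y g := by
    by_contra hc
    exact h1 ⟨g, le_rfl, hc⟩
  exact (h3.congr T (fun d hd => (h2 d hd).symm)) hg

theorem retr_id {x : W → W} (hx : x ∈ body (treeS T)) : retr T x = x := by
  rw [mem_body] at hx
  funext i
  have : ¬ ∃ g' ≤ i, ¬ Good T x g' := fun ⟨g', _, h'⟩ => h' (hx g')
  simp only [retr, if_neg this]

theorem retr_local {y y' : W → W} {α : W} (h : ∀ i < α, y i = y' i) (i : W) (hi : i < α) :
    retr T y i = retr T y' i := by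
  have h1 : (∃ g ≤ i, ¬ Good T y g) ↔ ∃ g ≤ i, ¬ Good T y' g := by
    constructor
    · rintro ⟨g, hg, hG⟩
      exact ⟨g, hg, fun hG' => hG (hG'.congr T (fun d hd => (h d ((hd.trans hg).trans_lt hi)).symm))⟩
    · rintro ⟨g, hg, hG⟩
      exact ⟨g, hg, fun hG' => hG (hG'.congr T (fun d hd => h d ((hd.trans hg).trans_lt hi)))⟩
  unfold retr
  by_cases hb : ∃ g ≤ i, ¬ Good T y g
  · rw [if_pos hb, if_pos (h1.mp hb)]
  · rw [if_neg hb, if_neg (fun h' => hb (h1.mpr h')), h i hi]

theorem res_eq_res_iff {x y : W → W} {α : W} : res x α = res y α ↔ ∀ i < α, x i = y i := by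
  constructor
  · intro h i hi
    rw [← ext_res x α hi, ← ext_res y α hi, h]
  · intro h
    unfold res
    congr 1
    funext i
    exact h i i.2

theorem isContImage_treeS : IsContImage (treeS T) := by
  refine ⟨fun y => ⟨retr T y, retr_mem T y⟩, ?_, ?_⟩
  · letI : TopologicalSpace (W → W) := bdd
    rw [continuous_induced_rng]
    refine continuous_generateFrom_iff.mpr ?_
    rintro N ⟨σ, rfl⟩
    rw [isOpen_iff_forall_mem_open]
    intro y hy
    refine ⟨{y' | res y' σ.len = res y σ.len}, ?_, ?_, rfl⟩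
    · intro y' hy'
      have hy2 : res (retr T y) σ.len = σ := hy
      change res (retr T y') σ.len = σ
      rw [← hy2]
      have h1 : ∀ i < σ.len, y' i = y i := res_eq_res_iff.mp hy'
      have h2 : res (retr T y') σ.len = res (retr T y) σ.len :=
        res_eq_res_iff.mpr (fun i hi => retr_local T h1 i hi)
      have h3 : (res (retr T y) σ.len).len = σ.len := rfl
      rw [h3]
      exact h2
    · exact TopologicalSpace.isOpen_generateFrom_of_mem ⟨res y σ.len, rfl⟩
  · rintro ⟨x, hx⟩
    exact ⟨x, Subtype.ext (retr_id T hx)⟩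

theorem isKurepa_treeS (hCH : (2 : Cardinal.{0}) ^ aleph0 = aleph 1) : IsKurepa (treeS T) where
  tree := isTree_treeS T
  height := height_treeS T
  level := level_treeS T hCH
  branches := branches_treeS T

end Codes

theorem tree_of_codes (hCH : (2 : Cardinal.{0}) ^ Cardinal.aleph0 = Cardinal.aleph 1)
    {C : Type 1} (T : CodeSys C) : ∃ S, IsKurepa S ∧ IsContImage S :=
  ⟨treeS T, isKurepa_treeS T hCH, isContImage_treeS T⟩

end Pool.MP_dc7230_lc
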